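import Pool.Agent.TC.Fin.Stmts

/-!
# FCLS: classifying maps of the vertical tangent bundle exist
-/

set_option autoImplicit false

open scoped Manifold ContDiff Topology

noncomputable section

namespace TC

namespace CLS

/-- Descent along a quotient map. -/
theorem descend {Z E Y : Type} [TopologicalSpace Z] [TopologicalSpace E] [TopologicalSpace Y]
    (q : Z → E) (hq : Topology.IsQuotientMap q) (g : Z → Y) (hg : Continuous g)
    (h : ∀ z z', q z = q z' → g z = g z') : ∃ f : E → Y, Continuous f ∧ ∀ z, f (q z) = g z := by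
  have hs := hq.surjective
  refine ⟨fun e => g (Function.surjInv hs e), ?_, fun z => h _ _ (Function.surjInv_eq hs (q z))⟩
  rw [hq.continuous_iff]
  have : (fun e => g (Function.surjInv hs e)) ∘ q = g :=
    funext fun z => h _ _ (Function.surjInv_eq hs (q z))
  rw [this]
  exact hg

/-- The inclusion of `H5` in `H6`. -/
def inc (h : H5) : H6 := ![h 0, h 1, h 2, h 3, h 4, 0]

theorem chi12'_inc (h : H5) : chi12' (inc h) = chi12 h := by
  funext i
  fin_cases i <;> simp [chi12', chi12, inc]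

theorem chi7'_inc (h : H5) : chi7' (inc h) = chi7 h := by
  funext i
  fin_cases i <;> simp [chi7', chi7, inc]

theorem inc_vadd (h : H5) (z : Mh) (b : S2) : inc h +ᵥ ((z, b) : ZZ) = (h +ᵥ z, b) := by
  rw [vadd6_eq, chi12'_inc]
  have h5 : inc h 5 = 0 := rfl
  simp only [h5, if_true]
  rfl

/-- The element `s`. -/
def e5 : H6 := ![0, 0, 0, 0, 0, 1]

theorem chi7'_e5 (i : Fin 7) : chi7' e5 i = 0 := by
  fin_cases i <;> simp [chi7', e5]

theorem e5_vadd (z : Mh) (b : S2) : e5 +ᵥ ((z, b) : ZZ) = (rotM 1 z, -b) := by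
  rw [vadd6_eq]
  have h5 : e5 5 = 1 := rfl
  have h10 : (1 : ZMod 2) ≠ 0 := by decide
  simp only [h5, if_neg h10]
  congr 1
  apply Subtype.ext
  funext i
  rw [vadd12_apply]
  by_cases hi : i = 0
  · subst hi
    rw [rotM_zero']
    have h1 : reS (chi12' e5) 0 = 1 := by simp [reS, chi12', e5]
    have h2 : imS (chi12' e5) 0 = 1 := by simp [imS, chi12', e5]
    rw [h1, h2]
    apply Circle.ext
    simp [flipC, z2_one_add_one, Circle.coe_exp]
  · rw [rotM_ne _ _ _ hi]
    have h1 : reS (chi12' e5) i = 0 ∧ imS (chi12' e5) i = 0 := by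
      fin_cases i <;> simp [reS, imS, chi12', e5] at hi ⊢
    rw [h1.1, h1.2, flipC_zero]

theorem sg_sum7 (a : Fin 7 → ZMod 2) : ∏ i, sg (a i) = sg (∑ i, a i) := by
  simp only [Fin.prod_univ_seven, Fin.sum_univ_seven, sg_add]

theorem sum_chi7' (h : H6) : ∑ i, chi7' h i = 0 := by
  simp only [Fin.sum_univ_seven, chi7', AddMonoidHom.coe_mk, ZeroHom.coe_mk]
  simp only [Matrix.cons_val]
  generalize h 0 = a0
  generalize h 1 = a1
  generalize h 2 = a2
  generalize h 3 = a3
  generalize h 4 = a4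
  revert a0 a1 a2 a3 a4
  decide

/-- Sign changes with product one do not change the oriented subspace. -/
theorem mk_eq (v w : Frames 7) (h : H6) (hvw : ∀ i, w.1 i = sg (chi7' h i) • v.1 i) :
    BSO.mk v = BSO.mk w := by
  apply Quotient.sound
  refine ⟨Matrix.diagonal fun i => sg (chi7' h i), ?_, fun j => ?_⟩
  · rw [Matrix.det_diagonal, sg_sum7, sum_chi7', sg_zero]
    exact one_pos
  · rw [hvw j]
    simp [Matrix.diagonal_apply, ite_smul]

end CLS

open CLS in
/-- FCLS: classifying maps exist. -/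
theorem FCLS (hopn : Stmt_FOPN) : Stmt_FCLS := by
  intro cs hM D hq hqe o ho ⟨L, hLc, hL⟩
  obtain ⟨hP1, hP2, hP3⟩ := hopn D hq
  -- the sum `∑ v_i L(z,b)_i`
  let Φ0 : (Mh × (Fin 7 → ℝ)) × S2 → L2 := fun p => ∑ i, p.1.2 i • (L (p.1.1, p.2)).1 i
  have hΦ0c : Continuous Φ0 := by
    refine continuous_finsetSum _ fun i _ => ?_
    have h1 : Continuous (fun p : (Mh × (Fin 7 → ℝ)) × S2 => p.1.2 i) := by fun_prop
    have h2 : Continuous (fun p : (Mh × (Fin 7 → ℝ)) × S2 => ((p.1.1, p.2) : ZZ)) := by fun_prop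
    have h3 : Continuous (fun p : (Mh × (Fin 7 → ℝ)) × S2 => (L (p.1.1, p.2)).1 i) :=
      (continuous_apply i).comp (continuous_subtype_val.comp (hLc.comp h2))
    exact h1.smul h3
  have hPc : Continuous D.P := D.cont
  have hquot : Topology.IsQuotientMap (Prod.map D.P (id : S2 → S2)) :=
    ((IsOpenQuotientMap.mk hP2 hPc hP1).prodMap .id).isQuotientMap
  have hwd : ∀ p p' : (Mh × (Fin 7 → ℝ)) × S2, Prod.map D.P (id : S2 → S2) p =
      Prod.map D.P (id : S2 → S2) p' → Φ0 p = Φ0 p' := by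
    rintro ⟨p, b⟩ ⟨p', b'⟩ h
    have h1 : D.P p = D.P p' := (Prod.ext_iff.1 h).1
    have h2 : b = b' := (Prod.ext_iff.1 h).2
    subst h2
    obtain ⟨g, rfl⟩ := (hP3 p p').1 h1
    change ∑ i, p.2 i • (L (p.1, b)).1 i =
      ∑ i, (sgv (chi7 g) p.2) i • (L (g +ᵥ p.1, b)).1 i
    refine Finset.sum_congr rfl fun i _ => ?_
    rw [← inc_vadd, hL, chi7'_inc, smul_smul]
    congr 1
    change p.2 i = sg (chi7 g i) * p.2 i * sg (chi7 g i)
    rw [mul_comm (sg (chi7 g i)) (p.2 i), mul_assoc, sg_mul_self, mul_one]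
  obtain ⟨Φ, hΦc, hΦ⟩ := descend _ hquot Φ0 hΦ0c hwd
  have hΦ' : ∀ (z : Mh) (w : Fin 7 → ℝ) (b : S2),
      Φ ((⟨qM z, D.Θ z w⟩ : TangentBundle (𝓡 7) Mq), b) = ∑ i, w i • (L (z, b)).1 i :=
    fun z w b => hΦ ((z, w), b)
  -- the linear map on a tangent space
  let T : ∀ (z : Mh) (b : S2), TangentSpace (𝓡 7) (qM z) →ₗ[ℝ] L2 := fun z b =>
    (Fintype.linearCombination ℝ (L (z, b)).1) ∘ₗ ((D.Θ z).symm : TangentSpace (𝓡 7) (qM z) →ₗ[ℝ] _)
  have hT : ∀ (z : Mh) (b : S2) (v : TangentSpace (𝓡 7) (qM z)),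
      Φ ((⟨qM z, v⟩ : TangentBundle (𝓡 7) Mq), b) = T z b v := by
    intro z b v
    have h1 := hΦ' z ((D.Θ z).symm v) b
    rw [LinearEquiv.apply_symm_apply] at h1
    rw [h1]
    simp [T, Fintype.linearCombination_apply]
  have hTi : ∀ (z : Mh) (b : S2), Function.Injective (T z b) := by
    intro z b
    have h1 : Function.Injective (Fintype.linearCombination ℝ (L (z, b)).1) := by
      have h2 := (L (z, b)).2
      exact linearIndependent_iff_injective_fintypeLinearCombination.1 h2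
    exact h1.comp (D.Θ z).symm.injective
  let G : GaussMap (circM D.smooth) :=
    { toFun := Φ
      cont := hΦc
      lin := by
        intro m b
        obtain ⟨z, rfl⟩ : ∃ z, qM z = m := Quotient.exists_rep m
        exact ⟨T z b, hTi z b, hT z b⟩
      inv := by
        intro v b
        obtain ⟨⟨z, w⟩, rfl⟩ := hP2 v
        have h1 : tangentMap (𝓡 7) (𝓡 7) (circM D.smooth).half (D.P (z, w)) =
            D.P (rotM 1 z, w) := D.rot 1 z w
        rw [h1]
        change Φ ((⟨qM (rotM 1 z), D.Θ (rotM 1 z) w⟩ : TangentBundle (𝓡 7) Mq), -b) =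
          Φ ((⟨qM z, D.Θ z w⟩ : TangentBundle (𝓡 7) Mq), b)
        rw [hΦ', hΦ', ← e5_vadd]
        refine Finset.sum_congr rfl fun i _ => ?_
        rw [hL, chi7'_e5, sg_zero, one_smul] }
  -- the classifying map
  have hmkc : Continuous (fun z : ZZ => (BSO.mk (L z) : BSO 7)) :=
    continuous_quotient_mk'.comp hLc
  obtain ⟨f, hfc, hf⟩ := descend qE hqe.toIsQuotientMap (fun z => BSO.mk (L z)) hmkc (by
    intro z z' h
    obtain ⟨g, hg⟩ := hqe.apply_eq_iff_mem_orbit.1 h
    have hg' : g +ᵥ z' = z := hg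
    rw [← hg']
    exact (mk_eq (L z') (L (g +ᵥ z')) g (hL g z')).symm)
  refine ⟨⟨f, hfc⟩, G, ?_⟩
  intro m b t ht
  obtain ⟨z, rfl⟩ : ∃ z, qM z = m := Quotient.exists_rep m
  have hdet := (ho z t).1 ht
  have hval : (fun i => G.toFun (⟨qM z, t i⟩, b)) = fun i => T z b (t i) :=
    funext fun i => hT z b (t i)
  have hli : LinearIndependent ℝ (fun i => G.toFun (⟨qM z, t i⟩, b)) := by
    rw [hval]
    exact t.linearIndependent.map' (T z b) (LinearMap.ker_eq_bot.2 (hTi z b))
  refine ⟨hli, ?_⟩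
  have h1 : f (Tot.mk (circM D.smooth).half (circM D.smooth).half_invol (qM z, b)) =
      BSO.mk (L (z, b)) := hf (z, b)
  change f (Tot.mk (circM D.smooth).half (circM D.smooth).half_invol (qM z, b)) = _
  rw [h1]
  apply Quotient.sound
  refine ⟨Matrix.of fun i j => (D.Θ z).symm (t j) i, hdet, fun j => ?_⟩
  change G.toFun (⟨qM z, t j⟩, b) = _
  have h2 : G.toFun (⟨qM z, t j⟩, b) = T z b (t j) := hT z b (t j)
  rw [h2]
  simp [T, Fintype.linearCombination_apply]

end TC
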