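import Pool.Agent.TC.Fin.Stmts

/-!
# FIN: the final assembly
-/

set_option autoImplicit false

open scoped Manifold ContDiff Topology

noncomputable section

namespace TC

/-- Equivariant labellings exist. -/
theorem exists_label {Z E : Type} [TopologicalSpace Z] [TopologicalSpace E] {A : Type}
    [AddCommGroup A] [AddAction A Z] (q : Z → E) (hq : IsAddQuotientCoveringMap q A) :
    ∃ lab : Z → A, IsLabel lab := by
  have hb : ∀ z : Z, ∃ h : A, h +ᵥ (Quotient.out (Quotient.mk (AddAction.orbitRel A Z) z)) = z := by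
    intro z
    have h1 : (AddAction.orbitRel A Z).r z (Quotient.out (Quotient.mk (AddAction.orbitRel A Z) z)) :=
      (AddAction.orbitRel A Z).symm (Quotient.mk_out z)
    exact h1
  choose lab hlab using hb
  refine ⟨lab, fun h z => ?_⟩
  have hsame : Quotient.mk (AddAction.orbitRel A Z) (h +ᵥ z) =
      Quotient.mk (AddAction.orbitRel A Z) z := Quotient.sound ⟨h, rfl⟩
  have h1 := hlab (h +ᵥ z)
  rw [hsame] at h1
  have h2 := hlab z
  set b := Quotient.out (Quotient.mk (AddAction.orbitRel A Z) z) with hbdef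
  have h3 : lab (h +ᵥ z) +ᵥ b = (h + lab z) +ᵥ b := by
    rw [h1, add_vadd, h2]
  have hc := hq.isCancelVAdd
  exact IsCancelVAdd.right_cancel _ _ b h3

theorem sum_chr (h : H6) : ∑ i, chr i h = 0 := by
  have h1 : ∀ i, chr i h = chi7' h i := fun _ => rfl
  simp only [h1, Fin.sum_univ_seven, chi7', AddMonoidHom.coe_mk, ZeroHom.coe_mk]
  simp only [Matrix.cons_val]
  generalize h 0 = a0
  generalize h 1 = a1
  generalize h 2 = a2
  generalize h 3 = a3
  generalize h 4 = a4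
  revert a0 a1 a2 a3 a4
  decide

/-- FFIN: the final assembly. -/
theorem FFIN (h2 : Stmt_FORI) (h4 : Stmt_FFRA) (h5 : Stmt_FCLS) (h6 : Stmt_FFRM)
    (h7 : Stmt_FNON) : Stmt_FFIN := by
  rintro ⟨cs, hM, Θ, hc, he, hsm, hrot⟩ ⟨hT2, hcp, hq⟩ ⟨hasp, hcon⟩ hqe ⟨W, hW, hmain⟩ hA hB
    ⟨T, zB, hzB, heval⟩
  let D : MfdData := ⟨Θ, hc, he, hsm, hrot⟩
  obtain ⟨o, ho⟩ := h2 D hq
  have hcl := h5 D hq hqe o ho (h4 hqe)
  refine ⟨Mq, inferInstance, cs, hM, hT2, hcp, hcon, o, circM D.smooth, hasp,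
    HH.mk (bigC W) (hA _ W hW), T, hcl, ?_⟩
  intro f hf
  obtain ⟨L, hL1, hL2, hL3⟩ := h6 D o ho f hf
  obtain ⟨lab, hlab⟩ := exists_label qE hqe
  obtain ⟨β, hβ⟩ := hmain 6 ZZ EE qE hqe lab hlab f L hL1 chr sum_chr hL2 hL3
  exact h7 hA hB hqe W hW _ T zB hzB heval lab hlab f β hβ

end TC
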