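import Pool.Agent.TC.Fin.Stmts

/-!
# FRM: frames for an arbitrary classifying map
-/

set_option autoImplicit false

open scoped Manifold ContDiff Topology

noncomputable section

namespace TC

namespace FRM

/-- The first five coordinates. -/
def h5of (h : H6) : H5 := fun i => h i.castSucc

theorem chi7_h5of (h : H6) : chi7 (h5of h) = chi7' h := rfl

theorem chi12_of_zero {h : H6} (h0 : h 5 = 0) : chi12' h = chi12 (h5of h) := by
  funext i
  fin_cases i <;> simp [chi12', chi12, h5of, h0]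

theorem flipC_one_add (a : ZMod 2) (z : Circle) :
    flipC (a + 1) (a + 1) z = flipC a a (Circle.exp (Real.pi * 1) * z) := by
  have hexp : Circle.exp (Real.pi * 1) = (-1 : Circle) := by
    apply Circle.ext
    rw [Circle.coe_exp, mul_one, Complex.exp_pi_mul_I]
    simp
  apply circle_ext
  · rw [flipC_re, flipC_re, hexp]
    rcases z2_cases a with rfl | rfl <;> simp [sg, z2_one_add_one]
  · rw [flipC_im, flipC_im, hexp]
    rcases z2_cases a with rfl | rfl <;> simp [sg, z2_one_add_one]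

theorem vadd_of_one {h : H6} (h1 : h 5 = 1) (z : Mh) :
    chi12' h +ᵥ z = h5of h +ᵥ rotM 1 z := by
  apply Subtype.ext
  funext i
  rw [vadd5_eq, vadd12_apply, vadd12_apply]
  by_cases hi : i = 0
  · subst hi
    have e1 : reS (chi12' h) 0 = h 0 + 1 := by simp [reS, chi12', h1]
    have e2 : imS (chi12' h) 0 = h 0 + 1 := by simp [imS, chi12', h1]
    have e3 : reS (chi12 (h5of h)) 0 = h 0 := rfl
    have e4 : imS (chi12 (h5of h)) 0 = h 0 := rfl
    rw [e1, e2, e3, e4, rotM_zero', flipC_one_add]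
  · rw [rotM_ne _ _ _ hi]
    have e1 : reS (chi12' h) i = reS (chi12 (h5of h)) i := by
      fin_cases i
      · exact absurd rfl hi
      all_goals rfl
    have e2 : imS (chi12' h) i = imS (chi12 (h5of h)) i := by
      fin_cases i
      · exact absurd rfl hi
      all_goals rfl
    rw [e1, e2]

theorem sgv_single (a : Fin 7 → ZMod 2) (i : Fin 7) :
    sgv a (Pi.single i (1 : ℝ)) = sg (a i) • (Pi.single i (1 : ℝ) : Fin 7 → ℝ) := by
  funext j
  by_cases hj : j = i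
  · subst hj
    simp [sgv]
  · simp [sgv, Pi.single_eq_of_ne hj]

variable [ChartedSpace (EuclideanSpace ℝ (Fin 7)) Mq] [IsManifold (𝓡 7) ∞ Mq]

theorem toFun_smul (D : MfdData) (Φ : GaussMap (circM D.smooth)) (z : Mh) (b : S2) (r : ℝ)
    (v : Fin 7 → ℝ) : Φ.toFun (D.P (z, r • v), b) = r • Φ.toFun (D.P (z, v), b) := by
  obtain ⟨Lin, -, hL⟩ := Φ.lin (qM z) b
  show Φ.toFun (⟨qM z, D.Θ z (r • v)⟩, b) = r • Φ.toFun (⟨qM z, D.Θ z v⟩, b)
  rw [hL, hL, map_smul, map_smul]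

theorem toFun_equiv (D : MfdData) (Φ : GaussMap (circM D.smooth)) (h : H5) (z : Mh) (b : S2)
    (i : Fin 7) : Φ.toFun (D.P (h +ᵥ z, Pi.single i (1 : ℝ)), b) =
      sg (chi7 h i) • Φ.toFun (D.P (z, Pi.single i (1 : ℝ)), b) := by
  have h1 : D.P (h +ᵥ z, sgv (chi7 h) (Pi.single i (1 : ℝ))) = D.P (z, Pi.single i (1 : ℝ)) :=
    D.equiv h z _
  rw [← h1, sgv_single, toFun_smul, smul_smul, sg_mul_self, one_smul]

theorem toFun_rot (D : MfdData) (Φ : GaussMap (circM D.smooth)) (z : Mh) (b : S2)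
    (v : Fin 7 → ℝ) : Φ.toFun (D.P (rotM 1 z, v), -b) = Φ.toFun (D.P (z, v), b) := by
  have h1 : tangentMap (𝓡 7) (𝓡 7) (circM D.smooth).half (D.P (z, v)) = D.P (rotM 1 z, v) :=
    D.rot 1 z v
  rw [← h1]
  exact Φ.inv _ _

theorem li (D : MfdData) (Φ : GaussMap (circM D.smooth)) (z : ZZ) :
    LinearIndependent ℝ (fun i : Fin 7 => Φ.toFun (D.P (z.1, Pi.single i (1 : ℝ)), z.2)) := by
  obtain ⟨Lin, hinj, hL⟩ := Φ.lin (qM z.1) z.2
  have h1 := (Pi.basisFun ℝ (Fin 7)).linearIndependent.map' ((D.Θ z.1 : (Fin 7 → ℝ) →ₗ[ℝ]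
    TangentSpace (𝓡 7) (qM z.1))) (LinearEquiv.ker _)
  have h2 := h1.map' Lin (LinearMap.ker_eq_bot.2 hinj)
  have h3 : (fun i : Fin 7 => Φ.toFun (D.P (z.1, Pi.single i (1 : ℝ)), z.2)) =
      Lin ∘ ((D.Θ z.1 : (Fin 7 → ℝ) →ₗ[ℝ] TangentSpace (𝓡 7) (qM z.1)) ∘
        (Pi.basisFun ℝ (Fin 7))) := by
    funext i
    show Φ.toFun (⟨qM z.1, D.Θ z.1 (Pi.single i (1 : ℝ))⟩, z.2) = _
    rw [hL]
    simp
  rw [h3]
  exact h2

end FRM

open FRM in
theorem FFRM : Stmt_FFRM := by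
  intro _ _ D o hor f hf
  obtain ⟨Φ, hΦ⟩ := hf
  refine ⟨fun z => ⟨fun i => Φ.toFun (D.P (z.1, Pi.single i (1 : ℝ)), z.2), li D Φ z⟩, ?_, ?_, ?_⟩
  · refine Continuous.subtype_mk (continuous_pi fun i => ?_) _
    refine Φ.cont.comp (Continuous.prodMk ?_ continuous_snd)
    exact D.cont.comp (continuous_fst.prodMk continuous_const)
  · rintro h ⟨z, b⟩ i
    show Φ.toFun (D.P ((h +ᵥ ((z, b) : ZZ)).1, Pi.single i (1 : ℝ)), (h +ᵥ ((z, b) : ZZ)).2) =
      sg (chi7' h i) • Φ.toFun (D.P (z, Pi.single i (1 : ℝ)), b)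
    rw [vadd6_eq]
    rcases z2_cases (h 5) with h0 | h0
    · rw [if_pos h0, chi12_of_zero h0, ← vadd5_eq]
      exact toFun_equiv D Φ (h5of h) z b i
    · have h0' : h 5 ≠ 0 := by rw [h0]; decide
      rw [if_neg h0']
      show Φ.toFun (D.P (chi12' h +ᵥ z, Pi.single i (1 : ℝ)), -b) = _
      rw [vadd_of_one h0, toFun_equiv, toFun_rot]
      rfl
  · rintro ⟨z, b⟩
    have hpos : 0 < Matrix.det (Matrix.of fun i j =>
        (D.Θ z).symm (((Pi.basisFun ℝ (Fin 7)).map (D.Θ z)) j) i) := by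
      have h1 : (Matrix.of fun i j =>
        (D.Θ z).symm (((Pi.basisFun ℝ (Fin 7)).map (D.Θ z)) j) i) = 1 := by
        ext i j
        rw [Matrix.of_apply, Module.Basis.map_apply, LinearEquiv.symm_apply_apply,
          Pi.basisFun_apply, Matrix.one_apply, Pi.single_apply]
      rw [h1, Matrix.det_one]
      exact one_pos
    obtain ⟨hli, h2⟩ := hΦ (qM z) b ((Pi.basisFun ℝ (Fin 7)).map (D.Θ z)) ((hor z _).2 hpos)
    refine h2.trans ?_
    congr 1
    apply Subtype.ext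
    funext i
    show Φ.toFun (⟨qM z, ((Pi.basisFun ℝ (Fin 7)).map (D.Θ z)) i⟩, b) =
      Φ.toFun (⟨qM z, D.Θ z (Pi.single i (1 : ℝ))⟩, b)
    rw [Module.Basis.map_apply, Pi.basisFun_apply]

end TC
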