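import Pool.Agent.TC.Fin.Stmts

/-!
# Non-vanishing of the class
-/

set_option autoImplicit false

open scoped Manifold ContDiff Topology

noncomputable section

namespace TC

theorem FNON_aux {E B : Type} [TopologicalSpace E] [TopologicalSpace B] {π : C(E, B)}
    (hB : Stmt_CUPB) (W : Coch (BSO 7) 2) (hW : cobd W = 0) (hc : cobd (bigC W) = 0)
    (T : FibreTransfer 6 π) (zB : Chain B 2) (hz : bd zB = 0) (om : Coch E 2)
    (h1 : pair (T.coch (j := 2) (bigC om)) zB = 1) (f : C(E, BSO 7)) (β : Coch E 1)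
    (hf : pull f W = om + cobd β) : T.integ (j := 2) (HH.map f (HH.mk (bigC W) hc)) ≠ 0 := by
  intro h0
  have hcc : cobd (pull f (bigC W)) = 0 := by rw [cobd_pull, hc, map_zero]
  have hcT : cobd (T.coch (j := 2) (pull f (bigC W))) = 0 := by
    rw [T.cobd_coch]
    have : cobd (k := 6 + 1 + 2) (pull f (bigC W)) = 0 := hcc
    rw [this]
    exact map_zero _
  have h2 : HH.mk (T.coch (j := 2) (pull f (bigC W))) hcT = 0 := h0
  have h3 : T.coch (j := 2) (pull f (bigC W)) ∈ Bk B 2 := by
    have h := (Submodule.Quotient.mk_eq_zero _).mp h2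
    exact h
  obtain ⟨b, hb⟩ : ∃ b, cobd (k := 1) b = T.coch (j := 2) (pull f (bigC W)) := h3
  obtain ⟨γ, hγ⟩ := hB E (pull f W) β (by rw [cobd_pull, hW, map_zero])
  have hom : pull f W + cobd β = om := by
    rw [hf, add_assoc]
    have : cobd β + cobd β = 0 := by
      funext σ
      show cobd β σ + cobd β σ = 0
      exact CharTwo.add_self_eq_zero _
    rw [this, add_zero]
  rw [hom] at hγ
  have h4 : T.coch (j := 2) (bigC om) = cobd b + cobd (T.coch (j := 1) γ) := by
    rw [T.cobd_coch, hb, hγ]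
    exact map_add (T.coch (j := 2)) _ _
  rw [h4, pair_add_left, pair_cobd, pair_cobd, hz, map_zero, map_zero, add_zero] at h1
  exact zero_ne_one h1

theorem FNON : Stmt_FNON := by
  intro _ hB _ W hW hc T zB hz h1 lab hlab f β hf
  exact FNON_aux hB W hW hc T zB hz _ (h1 lab hlab) f β hf

end TC
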