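import Pool.Agent.TC.Fin.Stmts

/-!
# Module FIN_NVF: equivariant functions without zeros, and an equivariant frame
-/

set_option autoImplicit false

open scoped Manifold ContDiff Topology

noncomputable section

namespace TC

namespace NVF

section avg

variable {Z : Type} [TopologicalSpace Z] {r : ℕ} [AddAction (Fin r → ZMod 2) Z]
  [ContinuousConstVAdd (Fin r → ZMod 2) Z]

/-- The signed sum of the translates of a function. -/
def avg (χ : (Fin r → ZMod 2) →+ ZMod 2) (φ : C(Z, ℝ)) : C(Z, ℝ) where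
  toFun z := ∑ h : Fin r → ZMod 2, sg (χ h) * φ (h +ᵥ z)
  continuous_toFun := by
    refine continuous_finsetSum _ fun h _ => ?_
    exact continuous_const.mul (φ.continuous.comp (continuous_const_vadd h))

theorem avg_apply (χ : (Fin r → ZMod 2) →+ ZMod 2) (φ : C(Z, ℝ)) (z : Z) :
    avg χ φ z = ∑ h : Fin r → ZMod 2, sg (χ h) * φ (h +ᵥ z) := rfl

theorem avg_vadd (χ : (Fin r → ZMod 2) →+ ZMod 2) (φ : C(Z, ℝ)) (g : Fin r → ZMod 2) (z : Z) :
    avg χ φ (g +ᵥ z) = sg (χ g) * avg χ φ z := by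
  rw [avg_apply, avg_apply, Finset.mul_sum]
  rw [← Equiv.sum_comp (Equiv.addRight g)
    (fun h : Fin r → ZMod 2 => sg (χ g) * (sg (χ h) * φ (h +ᵥ z)))]
  refine Finset.sum_congr rfl fun h _ => ?_
  show sg (χ h) * φ (h +ᵥ (g +ᵥ z)) = sg (χ g) * (sg (χ (h + g)) * φ ((h + g) +ᵥ z))
  rw [add_vadd, map_add, sg_add]
  have := sg_mul_self (χ g)
  calc sg (χ h) * φ (h +ᵥ (g +ᵥ z)) = (sg (χ g) * sg (χ g)) * (sg (χ h) * φ (h +ᵥ (g +ᵥ z))) := by
        rw [this, one_mul]
    _ = _ := by ring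

theorem exists_avg [CompactSpace Z] [T2Space Z]
    (hfree : ∀ (h : Fin r → ZMod 2) (z : Z), h +ᵥ z = z → h = 0)
    (χ : (Fin r → ZMod 2) →+ ZMod 2) (z₀ : Z) : ∃ φ : C(Z, ℝ), avg χ φ z₀ ≠ 0 := by
  classical
  set S : Set Z := (fun h : Fin r → ZMod 2 => h +ᵥ z₀) '' {h | h ≠ 0} with hS
  have hSf : S.Finite := (Set.toFinite _).image _
  have hdis : Disjoint S {z₀} := by
    rw [Set.disjoint_singleton_right]
    rintro ⟨h, hh, he⟩
    exact hh (hfree h z₀ he)
  obtain ⟨φ, h0, h1, -⟩ := exists_continuous_zero_one_of_isClosed hSf.isClosed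
    (isClosed_singleton (x := z₀)) hdis
  refine ⟨φ, ?_⟩
  rw [avg_apply, Finset.sum_eq_single 0]
  · have : φ z₀ = 1 := h1 rfl
    rw [map_zero, sg_zero, zero_vadd, this]
    norm_num
  · intro h _ hh
    have : φ (h +ᵥ z₀) = 0 := h0 ⟨h, hh, rfl⟩
    rw [this, mul_zero]
  · intro h
    exact absurd (Finset.mem_univ _) h

end avg

/-- The coordinate vector of `ℓ²`. -/
def e (n : ℕ) : L2 := lp.single 2 n (1 : ℝ)

theorem e_apply (n m : ℕ) : (e n : ℕ → ℝ) m = if m = n then 1 else 0 := by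
  unfold e
  rw [lp.single_apply]
  by_cases h : m = n
  · subst h
    simp
  · simp [h]

/-- The vector with coordinates `v`, in the `i`-th block. -/
def blk {N : ℕ} (i : Fin 7) (v : Fin N → ℝ) : L2 := ∑ k : Fin N, v k • e (7 * (k : ℕ) + (i : ℕ))

theorem blk_apply {N : ℕ} (i : Fin 7) (v : Fin N → ℝ) (m : ℕ) :
    (blk i v : ℕ → ℝ) m = ∑ k : Fin N, if m = 7 * (k : ℕ) + (i : ℕ) then v k else 0 := by
  unfold blk
  rw [lp.coeFn_sum, Finset.sum_apply]
  refine Finset.sum_congr rfl fun k _ => ?_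
  rw [lp.coeFn_smul, Pi.smul_apply, e_apply]
  split_ifs <;> simp

theorem blk_self {N : ℕ} (i : Fin 7) (v : Fin N → ℝ) (k : Fin N) :
    (blk i v : ℕ → ℝ) (7 * (k : ℕ) + (i : ℕ)) = v k := by
  rw [blk_apply, Finset.sum_eq_single k]
  · simp
  · intro l _ hl
    rw [if_neg]
    intro h
    exact hl (Fin.ext (by omega))
  · intro h
    exact absurd (Finset.mem_univ _) h

theorem blk_other {N : ℕ} (i j : Fin 7) (hij : j ≠ i) (v : Fin N → ℝ) (k : ℕ) :
    (blk j v : ℕ → ℝ) (7 * k + (i : ℕ)) = 0 := by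
  rw [blk_apply]
  refine Finset.sum_eq_zero fun l _ => ?_
  rw [if_neg]
  intro h
  have h1 := i.2
  have h2 := j.2
  exact hij (Fin.ext (by omega))

theorem linInd {N : Fin 7 → ℕ} (v : ∀ i, Fin (N i) → ℝ) (hv : ∀ i, v i ≠ 0) :
    LinearIndependent ℝ (fun i : Fin 7 => blk i (v i)) := by
  rw [Fintype.linearIndependent_iff]
  intro c hc i
  obtain ⟨k, hk⟩ := Function.ne_iff.mp (hv i)
  have h1 := congrArg (fun w : L2 => (w : ℕ → ℝ) (7 * (k : ℕ) + (i : ℕ))) hc
  simp only at h1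
  rw [lp.coeFn_sum, Finset.sum_apply, Finset.sum_eq_single i] at h1
  · rw [lp.coeFn_smul, Pi.smul_apply, blk_self] at h1
    have h2 : c i * v i k = 0 := by simpa using h1
    rcases mul_eq_zero.mp h2 with h | h
    · exact h
    · exact absurd h hk
  · intro j _ hj
    rw [lp.coeFn_smul, Pi.smul_apply, blk_other i j hj, smul_zero]
  · intro h
    exact absurd (Finset.mem_univ _) h

theorem continuous_blk {N : ℕ} (i : Fin 7) : Continuous (blk i : (Fin N → ℝ) → L2) := by
  unfold blk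
  refine continuous_finsetSum _ fun k _ => ?_
  exact (continuous_apply k).smul continuous_const

theorem blk_smul {N : ℕ} (i : Fin 7) (a : ℝ) (v : Fin N → ℝ) : blk i (a • v) = a • blk i v := by
  unfold blk
  rw [Finset.smul_sum]
  refine Finset.sum_congr rfl fun k _ => ?_
  rw [Pi.smul_apply, smul_eq_mul, mul_smul]

instance instT2Mh : T2Space Mh :=
  inferInstanceAs (T2Space {z : Fin 8 → Circle // levelF z = 2})

theorem continuous_levelF : Continuous levelF := by
  unfold levelF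
  fun_prop

instance instCompactMh : CompactSpace Mh := by
  have h : IsClosed {z : Fin 8 → Circle | levelF z = 2} :=
    isClosed_eq continuous_levelF continuous_const
  exact isCompact_iff_compactSpace.mp h.isCompact

end NVF

open NVF in
theorem FNVF : Stmt_FNVF := by
  intro Z _ _ _ r _ _ hfree χ
  choose φ hφ using fun z₀ : Z => exists_avg hfree χ z₀
  have hopen : ∀ z₀ : Z, IsOpen {z | avg χ (φ z₀) z ≠ 0} := fun z₀ =>
    isOpen_ne_fun (avg χ (φ z₀)).continuous continuous_const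
  obtain ⟨t, ht⟩ := isCompact_univ.elim_finite_subcover (fun z₀ : Z => {z | avg χ (φ z₀) z ≠ 0})
    hopen (fun z _ => Set.mem_iUnion.mpr ⟨z, hφ z⟩)
  refine ⟨t.card, ⟨fun z k => avg χ (φ (t.equivFin.symm k).1) z, ?_⟩, ?_, ?_⟩
  · exact continuous_pi fun k => (avg χ (φ (t.equivFin.symm k).1)).continuous
  · intro z hz
    have h1 := ht (Set.mem_univ z)
    rw [Set.mem_iUnion₂] at h1
    obtain ⟨z₀, hz₀, h2⟩ := h1
    apply h2
    have h3 := congrFun hz (t.equivFin ⟨z₀, hz₀⟩)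
    simpa using h3
  · intro h z
    funext k
    exact avg_vadd χ _ h z

open NVF in
theorem FFRA : Stmt_FFRA := by
  intro hq
  have := hq.toContinuousConstVAdd
  have hfree : ∀ (h : Fin 6 → ZMod 2) (z : ZZ), h +ᵥ z = z → h = 0 := by
    intro h z hz
    obtain ⟨U, hU, hd⟩ := hq.disjoint z
    refine hd h ⟨z, ⟨z, mem_of_mem_nhds hU, hz⟩, mem_of_mem_nhds hU⟩
  choose N u hu0 hu using fun i : Fin 7 => FNVF ZZ 6 hfree (chr i)
  refine ⟨fun z => ⟨fun i => blk i (u i z), linInd (fun i => u i z) (fun i => hu0 i z)⟩, ?_, ?_⟩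
  · refine Continuous.subtype_mk ?_ _
    exact continuous_pi fun i => (continuous_blk i).comp (u i).continuous
  · intro h z i
    show blk i (u i (h +ᵥ z)) = sg (chi7' h i) • blk i (u i z)
    rw [hu i h z, blk_smul]
    rfl

end TC
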