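import Pool.Agent.TC.Fin.Stmts

/-!
# FOPN: the covering of the tangent bundle is open
-/

set_option autoImplicit false

open scoped Manifold ContDiff Topology

noncomputable section

namespace TC

section opn

variable [ChartedSpace (EuclideanSpace ℝ (Fin 7)) Mq] [IsManifold (𝓡 7) ∞ Mq]

/-- The projection to the base. -/
theorem MfdData.P_proj (D : MfdData) (p : Mh × (Fin 7 → ℝ)) : (D.P p).1 = qM p.1 := rfl

theorem MfdData.P_surj (D : MfdData) (hq : IsAddQuotientCoveringMap qM H5) :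
    Function.Surjective D.P := by
  rintro ⟨m, u⟩
  obtain ⟨z, rfl⟩ := hq.surjective m
  refine ⟨(z, (D.Θ z).symm u), ?_⟩
  show (⟨qM z, D.Θ z ((D.Θ z).symm u)⟩ : TangentBundle (𝓡 7) Mq) = ⟨qM z, u⟩
  rw [LinearEquiv.apply_symm_apply]

theorem MfdData.P_fib (D : MfdData) (p p' : Mh × (Fin 7 → ℝ)) :
    D.P p = D.P p' ↔ ∃ h : H5, p' = (h +ᵥ p.1, sgv (chi7 h) p.2) := by
  constructor
  · intro hp
    have h1 : qM p'.1 = qM p.1 := (congrArg (fun w : TangentBundle (𝓡 7) Mq => w.1) hp).symm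
    obtain ⟨h, hh⟩ := qM_eq_iff.1 h1
    refine ⟨h, ?_⟩
    obtain ⟨z', v'⟩ := p'
    obtain ⟨z, v⟩ := p
    simp only at hh ⊢
    subst hh
    have h2 : (⟨qM (h +ᵥ z), D.Θ (h +ᵥ z) (sgv (chi7 h) v)⟩ : TangentBundle (𝓡 7) Mq) =
        ⟨qM (h +ᵥ z), D.Θ (h +ᵥ z) v'⟩ := (D.equiv h z v).trans hp
    have h3 := Bundle.TotalSpace.mk_injective (F := EuclideanSpace ℝ (Fin 7)) (qM (h +ᵥ z)) h2
    have h4 := (D.Θ (h +ᵥ z)).injective h3
    rw [← h4]
  · rintro ⟨h, rfl⟩
    exact (D.equiv h p.1 p.2).symm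

/-- The operator of `Θ z` in a trivialisation at a point. -/
def MfdData.AC (D : MfdData) (z0 z : Mh) : (Fin 7 → ℝ) →L[ℝ] EuclideanSpace ℝ (Fin 7) :=
  LinearMap.toContinuousLinearMap
    (((trivializationAt (EuclideanSpace ℝ (Fin 7)) (TangentSpace (𝓡 7)) (qM z0)).linearMapAt ℝ
      (qM z)).comp (D.Θ z).toLinearMap)

theorem MfdData.AC_apply (D : MfdData) (z0 z : Mh)
    (hz : qM z ∈ (trivializationAt (EuclideanSpace ℝ (Fin 7)) (TangentSpace (𝓡 7) : Mq → Type _)
      (qM z0)).baseSet) (v : Fin 7 → ℝ) :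
    D.AC z0 z v = ((trivializationAt (EuclideanSpace ℝ (Fin 7)) (TangentSpace (𝓡 7))
      (qM z0)) (D.P (z, v))).2 := by
  unfold MfdData.AC
  rw [LinearMap.coe_toContinuousLinearMap']
  show (trivializationAt (EuclideanSpace ℝ (Fin 7)) (TangentSpace (𝓡 7)) (qM z0)).linearMapAt ℝ
    (qM z) (D.Θ z v) = _
  rw [Bundle.Trivialization.coe_linearMapAt_of_mem _ hz]
  rfl

/-- Invertibility of the operator. -/
theorem MfdData.AC_equiv (D : MfdData) (z0 z : Mh)
    (hz : qM z ∈ (trivializationAt (EuclideanSpace ℝ (Fin 7)) (TangentSpace (𝓡 7) : Mq → Type _)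
      (qM z0)).baseSet) :
    ∃ e : (Fin 7 → ℝ) ≃L[ℝ] EuclideanSpace ℝ (Fin 7),
      (e : (Fin 7 → ℝ) →L[ℝ] EuclideanSpace ℝ (Fin 7)) = D.AC z0 z := by
  refine ⟨LinearEquiv.toContinuousLinearEquiv ((D.Θ z).trans
    ((trivializationAt (EuclideanSpace ℝ (Fin 7)) (TangentSpace (𝓡 7)) (qM z0)).linearEquivAt ℝ
      (qM z) hz)), ?_⟩
  ext v i
  rw [D.AC_apply z0 z hz v]
  rfl

/-- Continuity of the operator at points over the base set. -/
theorem MfdData.AC_cont (D : MfdData) (z0 : Mh) (hc : Continuous qM) :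
    ContinuousOn (D.AC z0) {z : Mh | qM z ∈
      (trivializationAt (EuclideanSpace ℝ (Fin 7)) (TangentSpace (𝓡 7) : Mq → Type _)
        (qM z0)).baseSet} := by
  rw [continuousOn_clm_apply]
  intro v
  set τ := trivializationAt (EuclideanSpace ℝ (Fin 7)) (TangentSpace (𝓡 7) : Mq → Type _) (qM z0)
    with hτ
  have h1 : ContinuousOn (fun z : Mh => (τ (D.P (z, v))).2) {z : Mh | qM z ∈ τ.baseSet} := by
    have h2 : ContinuousOn (fun z : Mh => τ (D.P (z, v))) {z : Mh | qM z ∈ τ.baseSet} := by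
      refine τ.continuousOn.comp ?_ ?_
      · have h3 : Continuous fun z : Mh => D.P (z, v) :=
          D.cont.comp (continuous_id.prodMk continuous_const)
        exact h3.continuousOn
      · intro z hz
        exact τ.mem_source.2 hz
    exact continuous_snd.comp_continuousOn h2
  refine h1.congr ?_
  intro z hz
  exact D.AC_apply z0 z hz v

theorem MfdData.P_open (D : MfdData) (hq : IsAddQuotientCoveringMap qM H5) : IsOpenMap D.P := by
  have hc : Continuous qM := hq.continuous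
  have hloc : IsLocalHomeomorph qM := hq.isCoveringMap.isLocalHomeomorph
  rw [isOpenMap_iff_nhds_le]
  rintro ⟨z0, v0⟩
  obtain ⟨e, he0, hef⟩ := hloc z0
  set τ := trivializationAt (EuclideanSpace ℝ (Fin 7)) (TangentSpace (𝓡 7) : Mq → Type _) (qM z0)
    with hτ
  have hb0 : qM z0 ∈ τ.baseSet := mem_baseSet_trivializationAt _ _ _
  set w0 : TangentBundle (𝓡 7) Mq := D.P (z0, v0) with hw0
  have hw01 : w0.1 = qM z0 := rfl
  have het : qM z0 ∈ e.target := by
    have := e.map_source he0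
    rwa [← hef] at this
  have hesym : e.symm (qM z0) = z0 := by
    have := e.left_inv he0
    rwa [← hef] at this
  let σ : TangentBundle (𝓡 7) Mq → Mh × (Fin 7 → ℝ) := fun w =>
    (e.symm w.1, (D.AC z0 (e.symm w.1)).inverse (τ w).2)
  have hproj : Continuous (fun w : TangentBundle (𝓡 7) Mq => w.1) :=
    FiberBundle.continuous_proj (EuclideanSpace ℝ (Fin 7)) (TangentSpace (𝓡 7) : Mq → Type _)
  have hs1 : ContinuousAt (fun w : TangentBundle (𝓡 7) Mq => e.symm w.1) w0 := by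
    have h1 : ContinuousAt e.symm w0.1 := e.continuousAt_symm het
    exact ContinuousAt.comp (f := fun w : TangentBundle (𝓡 7) Mq => w.1) h1 hproj.continuousAt
  have hU : {z : Mh | qM z ∈ τ.baseSet} ∈ 𝓝 z0 := (τ.open_baseSet.preimage hc).mem_nhds hb0
  have hA : ContinuousAt (D.AC z0) z0 := (D.AC_cont z0 hc).continuousAt hU
  have hinv : ContinuousAt (fun z => (D.AC z0 z).inverse) z0 := by
    obtain ⟨E, hE⟩ := D.AC_equiv z0 z0 hb0
    have h1 : ContinuousAt ContinuousLinearMap.inverse (D.AC z0 z0) := by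
      rw [← hE]
      exact (contDiffAt_map_inverse (n := 0) E).continuousAt
    exact ContinuousAt.comp (f := D.AC z0) h1 hA
  have hs2 : ContinuousAt (fun w : TangentBundle (𝓡 7) Mq =>
      (D.AC z0 (e.symm w.1)).inverse) w0 := by
    have h1 : ContinuousAt (fun z => (D.AC z0 z).inverse) (e.symm w0.1) := by
      rw [hw01, hesym]; exact hinv
    exact ContinuousAt.comp (f := fun w : TangentBundle (𝓡 7) Mq => e.symm w.1) h1 hs1
  have hs3 : ContinuousAt (fun w : TangentBundle (𝓡 7) Mq => (τ w).2) w0 := by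
    have h1 : ContinuousAt τ w0 := τ.continuousAt (τ.mem_source.2 hb0)
    exact ContinuousAt.comp (f := fun w : TangentBundle (𝓡 7) Mq => τ w)
      continuous_snd.continuousAt h1
  have hσ : ContinuousAt σ w0 := ContinuousAt.prodMk hs1 (hs2.clm_apply hs3)
  have hσ0 : σ w0 = (z0, v0) := by
    obtain ⟨E, hE⟩ := D.AC_equiv z0 z0 hb0
    have h1 : e.symm w0.1 = z0 := hesym
    have h2 : (τ w0).2 = E v0 := by
      rw [hw0, ← D.AC_apply z0 z0 hb0 v0, ← hE]; rfl
    show (e.symm w0.1, (D.AC z0 (e.symm w0.1)).inverse (τ w0).2) = (z0, v0)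
    rw [h1, h2, ← hE, ContinuousLinearMap.inverse_equiv]
    simp
  have hright : ∀ᶠ w in 𝓝 w0, D.P (σ w) = w := by
    have h1 : ∀ᶠ w : TangentBundle (𝓡 7) Mq in 𝓝 w0, w.1 ∈ e.target ∩ τ.baseSet := by
      have h2 : e.target ∩ τ.baseSet ∈ 𝓝 w0.1 :=
        (e.open_target.inter τ.open_baseSet).mem_nhds ⟨het, hb0⟩
      exact hproj.continuousAt h2
    filter_upwards [h1] with w hw
    have hqe : qM (e.symm w.1) = w.1 := by
      have := e.right_inv hw.1
      rwa [← hef] at this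
    have hbz : qM (e.symm w.1) ∈ τ.baseSet := by rw [hqe]; exact hw.2
    obtain ⟨E, hE⟩ := D.AC_equiv z0 (e.symm w.1) hbz
    have h3 : (τ (D.P (σ w))).2 = (τ w).2 := by
      have h4 := D.AC_apply z0 (e.symm w.1) hbz ((D.AC z0 (e.symm w.1)).inverse (τ w).2)
      have h5 : D.AC z0 (e.symm w.1) ((D.AC z0 (e.symm w.1)).inverse (τ w).2) = (τ w).2 := by
        rw [← hE, ContinuousLinearMap.inverse_equiv]
        simp
      rw [h5] at h4
      exact h4.symm
    have h6 : (τ (D.P (σ w))).1 = (τ w).1 := by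
      rw [τ.coe_fst (τ.mem_source.2 hbz), τ.coe_fst (τ.mem_source.2 hw.2)]
      exact hqe
    exact τ.injOn (τ.mem_source.2 hbz) (τ.mem_source.2 hw.2) (Prod.ext h6 h3)
  intro s hs
  rw [Filter.mem_map] at hs
  have h7 : σ ⁻¹' (D.P ⁻¹' s) ∈ 𝓝 w0 := by
    apply hσ
    rw [hσ0]; exact hs
  filter_upwards [h7, hright] with w hw1 hw2
  have : D.P (σ w) ∈ s := hw1
  rwa [hw2] at this

end opn

/-- FOPN: the covering of the tangent bundle is an open surjective map, and its fibres are the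
orbits. -/
theorem FOPN : Stmt_FOPN := by
  intro _ _ D hq
  exact ⟨D.P_open hq, D.P_surj hq, D.P_fib⟩

end TC
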