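import Pool.Agent.TC.Fin.Stmts

/-!
# FORI: the orientation of `M`
-/

set_option autoImplicit false
set_option linter.unusedSectionVars false

open scoped Manifold ContDiff Topology

noncomputable section

namespace TC

namespace ORI

theorem sum_chi7 (h : H5) : ∑ i, chi7 h i = 0 := by
  simp only [Fin.sum_univ_seven, chi7, AddMonoidHom.coe_mk, ZeroHom.coe_mk]
  simp only [Matrix.cons_val]
  generalize h 0 = a0
  generalize h 1 = a1
  generalize h 2 = a2
  generalize h 3 = a3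
  generalize h 4 = a4
  revert a0 a1 a2 a3 a4
  decide

theorem prod_sg {ι : Type} (s : Finset ι) (a : ι → ZMod 2) :
    ∏ i ∈ s, sg (a i) = sg (∑ i ∈ s, a i) := by
  classical
  induction s using Finset.induction_on with
  | empty => simp [sg_zero]
  | insert i s hi ih => rw [Finset.prod_insert hi, Finset.sum_insert hi, sg_add, ih]

section

variable [ChartedSpace (EuclideanSpace ℝ (Fin 7)) Mq] [IsManifold (𝓡 7) ∞ Mq]

/-- The trivialisation with values in the model space. -/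
def _root_.TC.MfdData.oTh (D : MfdData) (z : Mh) : (Fin 7 → ℝ) ≃ₗ[ℝ] EuclideanSpace ℝ (Fin 7) := D.Θ z

theorem tb_eq {m m' : Mq} {x x' : EuclideanSpace ℝ (Fin 7)}
    (h : (⟨m, x⟩ : TangentBundle (𝓡 7) Mq) = ⟨m', x'⟩) : m = m' ∧ x = x' := by
  have h2 := Bundle.TotalSpace.mk.inj h
  exact ⟨h2.1, eq_of_heq h2.2⟩

theorem Th_vadd (D : MfdData) (h : H5) (z : Mh) (v : Fin 7 → ℝ) :
    D.oTh (h +ᵥ z) (sgv (chi7 h) v) = D.oTh z v := (tb_eq (D.equiv h z v)).2

theorem sgv_sgv {n : ℕ} (a : Fin n → ZMod 2) (v : Fin n → ℝ) : sgv a (sgv a v) = v := by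
  funext i
  simp only [sgv, ← mul_assoc, sg_mul_self, one_mul]

theorem Th_vadd_symm (D : MfdData) (h : H5) (z : Mh) (x : EuclideanSpace ℝ (Fin 7)) :
    (D.oTh (h +ᵥ z)).symm x = sgv (chi7 h) ((D.oTh z).symm x) := by
  rw [LinearEquiv.symm_apply_eq, Th_vadd, LinearEquiv.apply_symm_apply]

/-- the determinant of a family of vectors with respect to the frame at `z` -/
def _root_.TC.MfdData.oDt (D : MfdData) (z : Mh) (t : Fin 7 → EuclideanSpace ℝ (Fin 7)) : ℝ :=
  Matrix.det (Matrix.of fun i j => (D.oTh z).symm (t j) i)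

theorem dt_vadd (D : MfdData) (h : H5) (z : Mh) (t : Fin 7 → EuclideanSpace ℝ (Fin 7)) :
    D.oDt (h +ᵥ z) t = D.oDt z t := by
  unfold MfdData.oDt
  have h1 : (Matrix.of fun i j => (D.oTh (h +ᵥ z)).symm (t j) i : Matrix (Fin 7) (Fin 7) ℝ) =
      Matrix.of fun i j => sg (chi7 h i) * (Matrix.of fun i j => (D.oTh z).symm (t j) i) i j := by
    ext i j
    simp only [Matrix.of_apply, Th_vadd_symm, sgv]
  rw [h1, Matrix.det_mul_column, prod_sg, sum_chi7, sg_zero, one_mul]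

theorem dt_congr (D : MfdData) {z z' : Mh} (hz : qM z = qM z')
    (t : Fin 7 → EuclideanSpace ℝ (Fin 7)) : D.oDt z t = D.oDt z' t := by
  obtain ⟨h, rfl⟩ := qM_eq_iff.1 hz
  exact dt_vadd D h z' t

/-- the orientation -/
def _root_.TC.MfdData.orE (D : MfdData) (m : Mq) : Orientation ℝ (EuclideanSpace ℝ (Fin 7)) (Fin 7) :=
  ((Pi.basisFun ℝ (Fin 7)).map (D.oTh (Quotient.out m))).orientation

theorem orE_iff (D : MfdData) (z : Mh)
    (t : Module.Basis (Fin 7) ℝ (EuclideanSpace ℝ (Fin 7))) :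
    t.orientation = D.orE (qM z) ↔ 0 < D.oDt z t := by
  have h0 : qM (Quotient.out (qM z)) = qM z := Quotient.out_eq (qM z)
  rw [← dt_congr D h0, eq_comm, MfdData.orE, Module.Basis.orientation_eq_iff_det_pos]
  have h1 : ((Pi.basisFun ℝ (Fin 7)).map (D.oTh (Quotient.out (qM z)))).det t =
      D.oDt (Quotient.out (qM z)) t := by
    rw [Module.Basis.det_apply, MfdData.oDt]
    congr 1
  rw [h1]

theorem qM_surj : Function.Surjective qM := fun m => ⟨Quotient.out m, Quotient.out_eq m⟩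

theorem orE_open (D : MfdData) (hq : IsAddQuotientCoveringMap qM H5) (hP : IsOpenMap D.P)
    (hPs : Function.Surjective D.P) :
    ∃ U : Set (Fin 7 → TangentBundle (𝓡 7) Mq), IsOpen U ∧
    ∀ (m : Mq) (t : Module.Basis (Fin 7) ℝ (EuclideanSpace ℝ (Fin 7))),
      (fun i => (⟨m, t i⟩ : TangentBundle (𝓡 7) Mq)) ∈ U ↔ t.orientation = D.orE m := by
  let W : Set (Fin 7 → Mh × (Fin 7 → ℝ)) :=
    ⋃ V : {V : Set Mh // IsOpen V ∧ ∀ h : H5, ((h +ᵥ ·) '' V ∩ V).Nonempty → h = 0},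
      {p | (∀ i, (p i).1 ∈ V.1) ∧ 0 < Matrix.det (Matrix.of fun i j => (p j).2 i)}
  have hW : IsOpen W := by
    refine isOpen_iUnion fun V => ?_
    refine IsOpen.inter (s := {p : Fin 7 → Mh × (Fin 7 → ℝ) | ∀ i, (p i).1 ∈ V.1}) ?_ ?_
    · have : {p : Fin 7 → Mh × (Fin 7 → ℝ) | ∀ i, (p i).1 ∈ V.1} =
          ⋂ i, {p | (p i).1 ∈ V.1} := by ext p; simp
      rw [this]
      exact isOpen_iInter_of_finite fun i =>
        V.2.1.preimage (continuous_fst.comp (continuous_apply i))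
    · refine isOpen_lt (f := fun _ : Fin 7 → Mh × (Fin 7 → ℝ) => (0 : ℝ)) continuous_const ?_
      refine Continuous.matrix_det ?_
      refine continuous_matrix fun i j => ?_
      exact (continuous_apply i).comp (continuous_snd.comp (continuous_apply j))
  refine ⟨Pi.map (fun _ => D.P) '' W, ?_, ?_⟩
  · exact IsOpenMap.piMap (fun _ => hP) (Filter.Eventually.of_forall fun _ => hPs) W hW
  · intro m t
    constructor
    · rintro ⟨p, hp, hpt⟩
      obtain ⟨V, hV1, hV2⟩ := Set.mem_iUnion.1 hp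
      have h1 : ∀ i, qM (p i).1 = m ∧ D.oTh (p i).1 (p i).2 = t i := fun i =>
        tb_eq (congrFun hpt i)
      have h2 : ∀ i, (p i).1 = (p 0).1 := by
        intro i
        obtain ⟨h, hh⟩ := qM_eq_iff.1 ((h1 i).1.trans (h1 0).1.symm)
        have h3 : h = 0 := V.2.2 h ⟨(p i).1, ⟨(p 0).1, hV1 0, hh⟩, hV1 i⟩
        rw [h3, zero_vadd] at hh
        exact hh.symm
      have h3 : ∀ i, (p i).2 = (D.oTh (p 0).1).symm (t i) := by
        intro i
        rw [← (h1 i).2, h2 i, LinearEquiv.symm_apply_apply]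
      rw [← (h1 0).1, orE_iff, MfdData.oDt]
      simpa only [h3] using hV2
    · intro ht
      obtain ⟨z, rfl⟩ := qM_surj m
      rw [orE_iff] at ht
      obtain ⟨U, hU, hU2⟩ := hq.disjoint z
      obtain ⟨V, hVU, hVo, hzV⟩ := mem_nhds_iff.1 hU
      refine ⟨fun i => (z, (D.oTh z).symm (t i)), Set.mem_iUnion.2
        ⟨⟨V, hVo, fun h hh => hU2 h (hh.mono ?_)⟩, fun i => hzV, ht⟩, ?_⟩
      · exact Set.inter_subset_inter (Set.image_mono hVU) hVU
      · funext i
        show (⟨qM z, D.oTh z ((D.oTh z).symm (t i))⟩ : TangentBundle (𝓡 7) Mq) = _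
        rw [LinearEquiv.apply_symm_apply]

end

end ORI

open ORI in
/-- FORI: the orientation of `M`. -/
theorem FORI (h1 : Stmt_FOPN) : Stmt_FORI := by
  intro _ _ D hq
  obtain ⟨hP, hPs, -⟩ := h1 D hq
  refine ⟨⟨D.orE, orE_open D hq hP hPs⟩, ?_⟩
  intro z t
  exact orE_iff D z t

end TC
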