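import Pool.Agent.TC.Iface
import Pool.Agent.TC.Cyc.Defs2

/-!
# Final assembly of MP_bc2780_gt: statements of the modules
-/

set_option autoImplicit false

open scoped Manifold ContDiff Topology

noncomputable section

namespace TC

section data

variable [ChartedSpace (EuclideanSpace ℝ (Fin 7)) Mq] [IsManifold (𝓡 7) ∞ Mq]

/-- The data provided by the block MFD. -/
structure MfdData where
  Θ : ∀ z : Mh, (Fin 7 → ℝ) ≃ₗ[ℝ] TangentSpace (𝓡 7) (qM z)
  cont : Continuous (fun p : Mh × (Fin 7 → ℝ) => (⟨qM p.1, Θ p.1 p.2⟩ : TangentBundle (𝓡 7) Mq))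
  equiv : ∀ (h : H5) (z : Mh) (v : Fin 7 → ℝ),
      (⟨qM (h +ᵥ z), Θ (h +ᵥ z) (sgv (chi7 h) v)⟩ : TangentBundle (𝓡 7) Mq) = ⟨qM z, Θ z v⟩
  smooth : ContMDiff ((𝓘(ℝ, ℝ)).prod (𝓡 7)) (𝓡 7) ∞ (fun p : ℝ × Mq => actM p.1 p.2)
  rot : ∀ (t : ℝ) (z : Mh) (v : Fin 7 → ℝ),
      tangentMap (𝓡 7) (𝓡 7) (actM t) (⟨qM z, Θ z v⟩ : TangentBundle (𝓡 7) Mq) =
        ⟨qM (rotM t z), Θ (rotM t z) v⟩

/-- The covering `Mh × ℝ⁷ → T M` of the tangent bundle. -/
def MfdData.P (D : MfdData) (p : Mh × (Fin 7 → ℝ)) : TangentBundle (𝓡 7) Mq := ⟨qM p.1, D.Θ p.1 p.2⟩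

/-- The circle action. -/
def circM (hs : ContMDiff ((𝓘(ℝ, ℝ)).prod (𝓡 7)) (𝓡 7) ∞ (fun p : ℝ × Mq => actM p.1 p.2)) :
    CircleAct Mq 7 where
  act := actM
  smooth := hs
  zero m := by
    induction m using Quotient.inductionOn with
    | _ z =>
      show qM (rotM 0 z) = qM z
      congr 1
      apply Subtype.ext
      funext i
      by_cases hi : i = 0
      · subst hi; rw [rotM_zero']; simp
      · rw [rotM_ne _ _ _ hi]
  add s t m := by
    induction m using Quotient.inductionOn with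
    | _ z =>
      show qM (rotM (s + t) z) = qM (rotM s (rotM t z))
      congr 1
      apply Subtype.ext
      funext i
      by_cases hi : i = 0
      · subst hi
        rw [rotM_zero', rotM_zero', rotM_zero', ← mul_assoc, ← Circle.exp_add, mul_add]
      · rw [rotM_ne _ _ _ hi, rotM_ne _ _ _ hi, rotM_ne _ _ _ hi]
  two m := by
    induction m using Quotient.inductionOn with
    | _ z =>
      show qM (rotM 2 z) = qM z
      congr 1
      apply Subtype.ext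
      funext i
      by_cases hi : i = 0
      · subst hi
        rw [rotM_zero', mul_comm Real.pi 2, Circle.exp_two_pi, one_mul]
      · rw [rotM_ne _ _ _ hi]

end data

/-- FOPN: the covering of the tangent bundle is an open surjective map, and its fibres are the
orbits. -/
def Stmt_FOPN : Prop :=
  ∀ [ChartedSpace (EuclideanSpace ℝ (Fin 7)) Mq] [IsManifold (𝓡 7) ∞ Mq] (D : MfdData),
  IsAddQuotientCoveringMap qM H5 →
  IsOpenMap D.P ∧ Function.Surjective D.P ∧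
    ∀ p p' : Mh × (Fin 7 → ℝ), D.P p = D.P p' ↔ ∃ h : H5, p' = (h +ᵥ p.1, sgv (chi7 h) p.2)

/-- FORI: the orientation of `M`. -/
def Stmt_FORI : Prop :=
  ∀ [ChartedSpace (EuclideanSpace ℝ (Fin 7)) Mq] [IsManifold (𝓡 7) ∞ Mq] (D : MfdData),
  IsAddQuotientCoveringMap qM H5 →
  ∃ o : Orient Mq 7, ∀ (z : Mh) (t : Module.Basis (Fin 7) ℝ (TangentSpace (𝓡 7) (qM z))),
    t.orientation = o.or (qM z) ↔
      0 < Matrix.det (Matrix.of fun i j => (D.Θ z).symm (t j) i)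

/-- FNVF: equivariant functions without zeros. -/
def Stmt_FNVF : Prop := ∀ (Z : Type) [TopologicalSpace Z] [CompactSpace Z] [T2Space Z]
  (r : ℕ) [AddAction (Fin r → ZMod 2) Z] [ContinuousConstVAdd (Fin r → ZMod 2) Z],
  (∀ (h : Fin r → ZMod 2) (z : Z), h +ᵥ z = z → h = 0) → ∀ χ : (Fin r → ZMod 2) →+ ZMod 2,
  ∃ (N : ℕ) (u : C(Z, Fin N → ℝ)), (∀ z, u z ≠ 0) ∧ ∀ h z, u (h +ᵥ z) = sg (χ h) • u z

/-- FFRA: an equivariant frame. -/
def Stmt_FFRA : Prop := QE_main → ∃ L : ZZ → Frames 7, Continuous L ∧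
  ∀ (h : H6) (z : ZZ) (i : Fin 7), (L (h +ᵥ z)).1 i = sg (chi7' h i) • (L z).1 i

/-- FCLS: classifying maps exist. -/
def Stmt_FCLS : Prop :=
  ∀ [ChartedSpace (EuclideanSpace ℝ (Fin 7)) Mq] [IsManifold (𝓡 7) ∞ Mq] (D : MfdData),
  IsAddQuotientCoveringMap qM H5 → QE_main → ∀ o : Orient Mq 7,
  (∀ (z : Mh) (t : Module.Basis (Fin 7) ℝ (TangentSpace (𝓡 7) (qM z))),
    t.orientation = o.or (qM z) ↔ 0 < Matrix.det (Matrix.of fun i j => (D.Θ z).symm (t j) i)) →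
  (∃ L : ZZ → Frames 7, Continuous L ∧
    ∀ (h : H6) (z : ZZ) (i : Fin 7), (L (h +ᵥ z)).1 i = sg (chi7' h i) • (L z).1 i) →
  ∃ f, IsClassifying o (circM D.smooth) f

/-- FFRM: frames for an arbitrary classifying map. -/
def Stmt_FFRM : Prop :=
  ∀ [ChartedSpace (EuclideanSpace ℝ (Fin 7)) Mq] [IsManifold (𝓡 7) ∞ Mq] (D : MfdData),
  ∀ o : Orient Mq 7,
  (∀ (z : Mh) (t : Module.Basis (Fin 7) ℝ (TangentSpace (𝓡 7) (qM z))),
    t.orientation = o.or (qM z) ↔ 0 < Matrix.det (Matrix.of fun i j => (D.Θ z).symm (t j) i)) →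
  ∀ f : C(EE, BSO 7), IsClassifying o (circM D.smooth) f →
  ∃ L : ZZ → Frames 7, Continuous L ∧
    (∀ (h : H6) (z : ZZ) (i : Fin 7), (L (h +ᵥ z)).1 i = sg (chi7' h i) • (L z).1 i) ∧
    ∀ z, f (qE z) = BSO.mk (L z)

/-- FNON: non-vanishing of the class. -/
def Stmt_FNON : Prop := Stmt_CUPA → Stmt_CUPB → QE_main → ∀ (W : Coch (BSO 7) 2) (_ : cobd W = 0)
  (hc : cobd (bigC W) = 0) (T : FibreTransfer 6 (Tot.proj (actM 1) actM_one_invol))
  (zB : Chain RP2 2), bd zB = 0 →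
  (∀ lab : ZZ → H6, IsLabel lab → pair (T.coch (j := 2) (bigC (omegaC qE lab chr))) zB = 1) →
  ∀ (lab : ZZ → H6), IsLabel lab → ∀ (f : C(EE, BSO 7)) (β : Coch EE 1),
  pull f W = omegaC qE lab chr + cobd β → T.integ (j := 2) (HH.map f (HH.mk (bigC W) hc)) ≠ 0

/-- FFIN: the final assembly. -/
def Stmt_FFIN : Prop := MFD_main → TOP_main → ASP_main → QE_main → C_MAIN → Stmt_CUPA →
  Stmt_CUPB → EVAL_main → Goal

end TC
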